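import Pool.Agent.H257R2.EAF.Main

/-!
# COLORING is NP-complete on even-antihole-free graphs

The reduction, described for the complement, where colourings are partitions into cliques: a path
with three vertices for every variable, its ends standing for the two literals, and a vertex for
every clause, adjacent to all other clause vertices and to the literals of the clause.  Every hole
of this graph is a pentagon, and its vertices can be covered by two cliques per variable if and
only if the formula is satisfiable.
-/

namespace Pool.Agent.Results.MP_f5610a_lc.EvenAntiholeFreeNPComplete

open Pool.Agent.NPC Pool.Agent.H257R2.EAF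

/-- **COLORING on even-antihole-free graphs is NP-complete.**
The problem COLORING (given the adjacency matrix of a graph and `k`, is the graph `k`-colourable?)
is in `NP`; every language in `NP` is reduced to it, by a polynomial-time many-one reduction all of
whose outputs are even-antihole-free graphs (in fact, graphs all of whose antiholes have exactly
five vertices); and there is a polynomial-time algorithm deciding `k`-colourability of every
even-antihole-free graph (or only of every graph all of whose antiholes have exactly five
vertices) if and only if `P = NP`. -/
theorem result :
    InNPP Coloring ∧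
    (∀ L : Set (List Bool), InNP L → ∃ f : List Bool → List Bool, PolyTime f ∧
      ∀ w, ∃ (n : ℕ) (G : SimpleGraph (Fin n)) (k : ℕ), f w = input G k ∧
        EvenAntiholeFree G ∧ AntiholesAreFive G ∧ (w ∈ L ↔ G.Colorable k)) ∧
    (SolvableOn (fun _ G => EvenAntiholeFree G) ↔ PEqNP) ∧
    (SolvableOn (fun _ G => AntiholesAreFive G) ↔ PEqNP) := by
  refine ⟨inNPP_coloring, ?_, ⟨?_, ?_⟩, ⟨pEqNP_of_solvable, ?_⟩⟩
  · intro L hL
    obtain ⟨f, hf, h⟩ := hard L hL
    refine ⟨f, hf, fun w => ?_⟩
    obtain ⟨n, G, k, h1, h2, h3⟩ := h w
    exact ⟨n, G, k, h1, evenAntiholeFree_of h2, h2, h3⟩
  · exact fun h => pEqNP_of_solvable (h.mono fun n G hG => evenAntiholeFree_of hG)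
  · exact fun h => (solvable_of h).mono fun _ _ _ => trivial
  · exact fun h => (solvable_of h).mono fun _ _ _ => trivial

end Pool.Agent.Results.MP_f5610a_lc.EvenAntiholeFreeNPComplete
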